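import Mathlib
import Pool.Agent.Helper35.HC.StA

/-!
Project HC (MP_925021_gt), module SPR: symmetric matrices whose eigenvalues differ by at most `2s`.
-/

set_option autoImplicit false

namespace Helper3.HC
open Matrix BigOperators
open Helper35.HC Helper35.PI

theorem exists_diag {n : ℕ} (M : Matrix (Fin n) (Fin n) ℝ) (hM : M.IsHermitian) :
    ∃ (O : Matrix (Fin n) (Fin n) ℝ) (l : Fin n → ℝ), Oᵀ * O = 1 ∧ O * Oᵀ = 1 ∧
      Oᵀ * M * O = Matrix.diagonal l := by
  refine ⟨(hM.eigenvectorUnitary : Matrix _ _ ℝ), hM.eigenvalues, ?_, ?_, ?_⟩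
  · have h := Unitary.coe_star_mul_self hM.eigenvectorUnitary
    rwa [Matrix.star_eq_conjTranspose, Matrix.conjTranspose_eq_transpose_of_trivial] at h
  · have h := Unitary.coe_star_mul_self hM.eigenvectorUnitary
    rw [Matrix.star_eq_conjTranspose, Matrix.conjTranspose_eq_transpose_of_trivial] at h
    exact mul_eq_one_comm.mp h
  · have h := hM.conjStarAlgAut_star_eigenvectorUnitary
    rw [Unitary.conjStarAlgAut_star_apply, Matrix.star_eq_conjTranspose,
      Matrix.conjTranspose_eq_transpose_of_trivial] at h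
    exact h

theorem fr_trace {n : ℕ} (N : Matrix (Fin n) (Fin n) ℝ) :
    ∑ i, ∑ j, N i j ^ 2 = (Nᵀ * N).trace := by
  rw [Finset.sum_comm]
  simp [Matrix.trace, Matrix.mul_apply, pow_two]

theorem fr_conj {n : ℕ} (N O : Matrix (Fin n) (Fin n) ℝ) (h1 : O * Oᵀ = 1) :
    ∑ i, ∑ j, (Oᵀ * N * O) i j ^ 2 = ∑ i, ∑ j, N i j ^ 2 := by
  rw [fr_trace, fr_trace]
  have e : (Oᵀ * N * O)ᵀ * (Oᵀ * N * O) = Oᵀ * (Nᵀ * N * O) := by
    simp only [Matrix.transpose_mul, Matrix.transpose_transpose]
    calc Oᵀ * (Nᵀ * O) * (Oᵀ * N * O) = Oᵀ * Nᵀ * (O * Oᵀ) * N * O := by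
          simp only [Matrix.mul_assoc]
      _ = _ := by rw [h1]; simp only [Matrix.mul_assoc, Matrix.mul_one]
  rw [e, Matrix.trace_mul_comm, Matrix.mul_assoc, h1, Matrix.mul_one]

/-- the traceless part has the smallest norm -/
theorem ip0_le {n : ℕ} (hn : 2 ≤ n) (X : Fin n → Fin n → ℝ) (z : ℝ) :
    ip0 X X ≤ ∑ i, ∑ j, (X i j - if i = j then z else 0) ^ 2 := by
  have hn0 : (n : ℝ) ≠ 0 := by
    have : 0 < n := by omega
    exact_mod_cast this.ne'
  have key : ∑ i, ∑ j, (X i j - if i = j then z else 0) ^ 2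
      = ip0 X X + n * (mt X - z) ^ 2 := by
    have e1 : ∀ i j : Fin n, (X i j - if i = j then z else 0) ^ 2
        = tl X i j * tl X i j + (if i = j then 2 * (mt X - z) * X i i
            - 2 * (mt X - z) * mt X + (mt X - z) ^ 2 else 0) := by
      intro i j
      unfold tl
      by_cases h : i = j
      · subst h; simp; ring
      · simp [h]; ring
    simp_rw [e1, Finset.sum_add_distrib]
    simp only [Finset.sum_ite_eq, Finset.mem_univ, if_true]
    have e2 : ∑ i, X i i = n * Helper35.HC.mt X := by unfold Helper35.HC.mt; field_simp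
    rw [Finset.sum_add_distrib, Finset.sum_sub_distrib, ← Finset.mul_sum, e2]
    simp
    unfold ip0
    ring
  rw [key]
  have : 0 ≤ (n : ℝ) * (mt X - z) ^ 2 := by positivity
  linarith

theorem cq_symm {n : ℕ} (X Y : Fin n → Fin n → ℝ) : cq Y X = cq X Y := by
  unfold cq
  refine Finset.sum_congr rfl fun i _ => Finset.sum_congr rfl fun j _ => ?_
  have : ∑ k, (Y i k * X k j - X i k * Y k j) = - ∑ k, (X i k * Y k j - Y i k * X k j) := by
    rw [← Finset.sum_neg_distrib]
    exact Finset.sum_congr rfl fun k _ => by ring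
  rw [this, neg_sq]

theorem ev_spread {n : ℕ} (X : Fin n → Fin n → ℝ) (s : ℝ) (hs : 0 ≤ s)
    (h : ∀ c d, OP c d → bil X c c - bil X d d ≤ 2 * s)
    (O : Matrix (Fin n) (Fin n) ℝ) (l : Fin n → ℝ) (h1 : Oᵀ * O = 1)
    (h3 : Oᵀ * Matrix.of X * O = Matrix.diagonal l) (i j : Fin n) : l i - l j ≤ 2 * s := by
  by_cases hij : i = j
  · subst hij; linarith
  have e : ∀ a b : Fin n, ∑ k, O k a * O k b = if a = b then 1 else 0 := by
    intro a b
    have := congrFun (congrFun h1 a) b
    simpa [Matrix.mul_apply, Matrix.one_apply] using this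
  have b : ∀ a : Fin n, bil X (fun k => O k a) (fun k => O k a) = l a := by
    intro a
    have := congrFun (congrFun h3 a) a
    rw [Matrix.diagonal_apply_eq] at this
    rw [← this]
    unfold bil
    simp only [Matrix.mul_apply, Matrix.transpose_apply, Matrix.of_apply, Finset.sum_mul]
    rw [Finset.sum_comm]
    exact Finset.sum_congr rfl fun p _ => Finset.sum_congr rfl fun q _ => by ring
  have := h (fun k => O k i) (fun k => O k j) ⟨by simpa [pow_two] using e i i,
    by simpa [pow_two] using e j j, by simpa [hij] using e i j⟩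
  rw [b, b] at this
  exact this

theorem hSPR : StSPR := by
  intro n hn X s hX hs hop
  have hM : (Matrix.of X).IsHermitian := by
    ext i j
    simp [hX i j]
  obtain ⟨O, l, h1, h2, h3⟩ := exists_diag (Matrix.of X) hM
  have hl := ev_spread X s hs hop O l h1 h3
  refine ⟨?_, fun Y _ => ⟨?_, cq_symm X Y⟩⟩
  · have : Nonempty (Fin n) := ⟨⟨0, by omega⟩⟩
    obtain ⟨a, ha⟩ := Finite.exists_max l
    obtain ⟨b, hb⟩ := Finite.exists_min l
    set z : ℝ := (l a + l b) / 2 with hz
    refine (ip0_le hn X z).trans ?_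
    have e := fr_conj (Matrix.of X - z • (1 : Matrix (Fin n) (Fin n) ℝ)) O h2
    have e2 : Oᵀ * (Matrix.of X - z • (1 : Matrix (Fin n) (Fin n) ℝ)) * O
        = Matrix.diagonal (fun i => l i - z) := by
      rw [Matrix.mul_sub, Matrix.sub_mul, h3, Matrix.mul_smul, Matrix.smul_mul, Matrix.mul_one, h1]
      ext i j
      by_cases hij : i = j
      · subst hij; simp
      · simp [hij]
    rw [e2] at e
    have e3 : ∑ i, ∑ j, (X i j - if i = j then z else 0) ^ 2
        = ∑ i, ∑ j, (Matrix.of X - z • (1 : Matrix (Fin n) (Fin n) ℝ)) i j ^ 2 := by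
      refine Finset.sum_congr rfl fun i _ => Finset.sum_congr rfl fun j _ => ?_
      simp [Matrix.one_apply]
    rw [e3, ← e]
    have e4 : ∀ i, ∑ j, (Matrix.diagonal (fun i => l i - z)) i j ^ 2 = (l i - z) ^ 2 := by
      intro i
      rw [Finset.sum_eq_single i]
      · simp
      · intro j _ hj
        simp [Matrix.diagonal_apply_ne _ hj.symm]
      · simp
    simp_rw [e4]
    calc ∑ i, (l i - z) ^ 2 ≤ ∑ _i : Fin n, s ^ 2 := by
          refine Finset.sum_le_sum fun i _ => ?_
          have q1 := ha i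
          have q2 := hb i
          have q3 := hl a b
          have : |l i - z| ≤ s := by
            rw [abs_le]; constructor <;> (rw [hz]; linarith)
          rw [← sq_abs (l i - z)]
          exact pow_le_pow_left₀ (abs_nonneg _) this 2
      _ = n * s ^ 2 := by simp
  · set W : Matrix (Fin n) (Fin n) ℝ := Matrix.of (tl Y) with hW
    set C : Matrix (Fin n) (Fin n) ℝ := Matrix.of X * W - W * Matrix.of X with hC
    have e1 : cq X Y = ∑ i, ∑ j, C i j ^ 2 := by
      unfold cq
      refine Finset.sum_congr rfl fun i _ => Finset.sum_congr rfl fun j _ => ?_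
      congr 1
      rw [hC, Matrix.sub_apply, Matrix.mul_apply, Matrix.mul_apply, ← Finset.sum_sub_distrib]
      have : ∀ k, (Matrix.of X) i k * W k j - W i k * (Matrix.of X) k j
          = (X i k * Y k j - Y i k * X k j)
            + ((if i = k then mt Y * X k j else 0) - (if k = j then X i k * mt Y else 0)) := by
        intro k
        simp only [hW, Matrix.of_apply, tl]
        by_cases h1 : i = k
        · subst h1
          by_cases h2 : i = j
          · subst h2; simp; ring
          · simp [h2]; ring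
        · by_cases h2 : k = j
          · subst h2; simp [h1]; ring
          · simp [h1, h2]
      simp_rw [this, Finset.sum_add_distrib, Finset.sum_sub_distrib]
      simp
      ring
    rw [e1, ← fr_conj C O h2]
    set Z : Matrix (Fin n) (Fin n) ℝ := Oᵀ * W * O with hZ
    have e2 : Oᵀ * C * O = Matrix.diagonal l * Z - Z * Matrix.diagonal l := by
      rw [hC, hZ, ← h3, Matrix.mul_sub, Matrix.sub_mul]
      congr 1
      · calc Oᵀ * (Matrix.of X * W) * O = Oᵀ * Matrix.of X * (1 : Matrix _ _ ℝ) * W * O := by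
              simp only [Matrix.mul_assoc, Matrix.mul_one]
          _ = _ := by rw [← h2]; simp only [Matrix.mul_assoc]
      · calc Oᵀ * (W * Matrix.of X) * O = Oᵀ * W * (1 : Matrix _ _ ℝ) * Matrix.of X * O := by
              simp only [Matrix.mul_assoc, Matrix.mul_one]
          _ = _ := by rw [← h2]; simp only [Matrix.mul_assoc]
    have e3 : ip0 Y Y = ∑ i, ∑ j, Z i j ^ 2 := by
      rw [hZ, fr_conj W O h2]
      unfold ip0
      refine Finset.sum_congr rfl fun i _ => Finset.sum_congr rfl fun j _ => ?_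
      simp only [hW, Matrix.of_apply]
      ring
    rw [e2, e3, Finset.mul_sum]
    refine Finset.sum_le_sum fun i _ => ?_
    rw [Finset.mul_sum]
    refine Finset.sum_le_sum fun j _ => ?_
    rw [Matrix.sub_apply, Matrix.diagonal_mul, Matrix.mul_diagonal]
    have q1 := hl i j
    have q2 := hl j i
    have q3 : (l i - l j) ^ 2 ≤ 4 * s ^ 2 := by
      have : |l i - l j| ≤ 2 * s := by rw [abs_le]; constructor <;> linarith
      have q4 := pow_le_pow_left₀ (abs_nonneg _) this 2
      rw [sq_abs] at q4
      linarith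
    have q5 : l i * Z i j - Z i j * l j = (l i - l j) * Z i j := by ring
    rw [q5, mul_pow]
    exact mul_le_mul_of_nonneg_right q3 (sq_nonneg _)

end Helper3.HC
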